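import Pool.Agent.H516.PCF.All

/-!
# Postcritically finite towers: the core lemma

Project PCF (helper516), `MP_392fd3_nt`.
-/

set_option autoImplicit false

namespace Pool.Agent.H726.PCF

open Pool.Agent.H516.PCF

theorem IsZp.sub {p : ℕ} (hp : p.Prime) {x y : ℝ} (hx : IsZp p x) (hy : IsZp p y) :
    IsZp p (x - y) := by
  obtain ⟨m, hm, z, hz⟩ := hx
  obtain ⟨n, hn, u, hu⟩ := hy
  refine ⟨m * n, fun h => ?_, n * z - m * u, ?_⟩
  · rcases hp.dvd_mul.1 h with h | h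
    · exact hm h
    · exact hn h
  · push_cast
    rw [← hz, ← hu]
    ring

theorem eq_zero_of_divZp {p : ℕ} (hp : p.Prime) {D : ℝ} (hD : IsZp p D)
    (h : ∀ j : ℕ, DivZp p j D) : D = 0 := by
  obtain ⟨m, hm, z, hz⟩ := hD
  have hz0 : z = 0 := by
    by_contra hne
    have hdiv : ∀ j : ℕ, (p : ℤ) ^ j ∣ z := by
      intro j
      obtain ⟨n, hn, u, hu⟩ := h j
      have h1 : (n : ℤ) * z = (p : ℤ) ^ j * (m * u) := by
        have h2 : ((n : ℝ)) * z = (p : ℝ) ^ j * (m * u) := by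
          rw [← hz]
          calc (n : ℝ) * (m * D) = m * (n * D) := by ring
            _ = m * ((p : ℝ) ^ j * u) := by rw [hu]
            _ = _ := by ring
        exact_mod_cast h2
      have hco : IsCoprime ((p : ℤ) ^ j) (n : ℤ) := by
        apply IsCoprime.pow_left
        rw [Nat.isCoprime_iff_coprime]
        exact (Nat.Prime.coprime_iff_not_dvd hp).2 hn
      exact hco.dvd_of_dvd_mul_left (Dvd.intro _ h1.symm)
    have h3 : (p : ℤ) ^ z.natAbs ≤ |z| := Int.le_of_dvd (abs_pos.2 hne) ((dvd_abs _ _).2 (hdiv _))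
    have h4 : z.natAbs < p ^ z.natAbs := Nat.lt_pow_self hp.one_lt
    have h5 : ((p ^ z.natAbs : ℕ) : ℤ) ≤ z.natAbs := by
      push_cast
      exact h3
    have h6 : p ^ z.natAbs ≤ z.natAbs := by exact_mod_cast h5
    omega
  rw [hz0, Int.cast_zero, mul_eq_zero] at hz
  rcases hz with hz | hz
  · exfalso
    apply hm
    have : m = 0 := by exact_mod_cast hz
    rw [this]
    exact dvd_zero p
  · exact hz

/-- The core lemma. -/
theorem core (hCORE1 : S_CORE1) (hREG : S_REG) : S_CORE := by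
  intro F _ _ _ p w d P Q A O hL γ hγ κ hκ hpath γ' hγ' x hx y hy hγ'γ hxγ hxγ' hyγ hyγ' ⟨h1, h2⟩
  obtain ⟨R, hR⟩ := hREG F p w d P Q A O hL γ κ
  have hp := hL.prime
  have hdiv : ∀ j : ℕ, DivZp p j ((w (x - γ) - w (x - γ')) - (w (y - γ) - w (y - γ'))) := by
    intro j
    obtain ⟨n, β, c, hP⟩ := hpath (R + w (γ - γ') + |w (x - γ) - w (x - γ')| +
      |w (y - γ) - w (y - γ')| + j * w (p : F))
    exact hCORE1 F p w d P Q A O hL γ hγ κ hκ γ' hγ' x hx y hy hγ'γ hxγ hxγ' hyγ hyγ' h1 h2 j R _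
      n β c hP (hR n β c _ hP) le_rfl
  have hD : IsZp p ((w (x - γ) - w (x - γ')) - (w (y - γ) - w (y - γ'))) :=
    IsZp.sub hp (IsZp.sub hp (hL.zp x hx γ hγ hxγ) (hL.zp x hx γ' hγ' hxγ'))
      (IsZp.sub hp (hL.zp y hy γ hγ hyγ) (hL.zp y hy γ' hγ' hyγ'))
  have h0 := eq_zero_of_divZp hp hD hdiv
  linarith

end Pool.Agent.H726.PCF
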